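import Pool.Agent.AGU.Stmts

set_option autoImplicit false

open scoped BigOperators Matrix

noncomputable section

namespace Pool.Agent.AGU.H10

/-- weighted Cauchy-Schwarz -/
theorem wcs {X : Type} [Fintype X] (k : X → ℝ) (hk : ∀ a, 0 < k a) (x y : X → ℂ) :
    (∑ c, k c * ‖x c‖ * ‖y c‖) ^ 2 ≤ (∑ c, k c * ‖x c‖ ^ 2) * ∑ c, k c * ‖y c‖ ^ 2 := by
  refine Finset.sum_sq_le_sum_mul_sum_of_sq_le_mul Finset.univ (fun i _ => ?_) (fun i _ => ?_)
    (fun i _ => ?_)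
  · have := (hk i).le
    positivity
  · have := (hk i).le
    positivity
  · exact le_of_eq (by ring)

/-- the bound of a sum with a diagonal factor -/
theorem dcs {X : Type} [Fintype X] (k : X → ℝ) (hk : ∀ a, 0 < k a) (x y z : X → ℂ) (d : ℝ)
    (hd : 0 ≤ d) (hz : ∀ a, ‖z a‖ ≤ d * k a) :
    ‖∑ c, x c * z c * y c‖ ^ 2 ≤ d ^ 2 * ((∑ c, k c * ‖x c‖ ^ 2) * ∑ c, k c * ‖y c‖ ^ 2) := by
  have h1 : ‖∑ c, x c * z c * y c‖ ≤ d * ∑ c, k c * ‖x c‖ * ‖y c‖ := by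
    refine (norm_sum_le _ _).trans ?_
    rw [Finset.mul_sum]
    refine Finset.sum_le_sum fun c _ => ?_
    rw [norm_mul, norm_mul]
    have h2 := mul_le_mul_of_nonneg_left (hz c) (mul_nonneg (norm_nonneg (x c)) (norm_nonneg (y c)))
    nlinarith [h2]
  have h3 : ‖∑ c, x c * z c * y c‖ ^ 2 ≤ (d * ∑ c, k c * ‖x c‖ * ‖y c‖) ^ 2 :=
    pow_le_pow_left₀ (norm_nonneg _) h1 2
  refine h3.trans ?_
  rw [mul_pow]
  exact mul_le_mul_of_nonneg_left (wcs k hk x y) (by positivity)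

theorem gpb (h : GwbStmt) : GpbStmt := by
  intro X _ _ G G' k k' z d hC
  have hk := hC.h0.hk
  have hd0 := hC.hd.1
  have hd4 := hC.hd.2
  obtain ⟨w1, -, -, -⟩ := h X G k hC.h0
  obtain ⟨v1, -, -, -⟩ := h X G' k' hC.h1
  have hkk : ∀ a, k a ≤ 4 / 3 * k' a := by
    intro a
    have h1 := hC.hk a
    have h2 := hC.hz a
    have h3 := Complex.abs_im_le_norm (z a)
    have h4 := neg_le_abs (z a).im
    have h5 : d * k a ≤ 1 / 4 * k a := mul_le_mul_of_nonneg_right hd4 (hk a).le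
    linarith
  have g0 : ∀ a, 0 ≤ (G a a).im := by
    intro a
    rw [← w1 a]
    exact Finset.sum_nonneg fun b _ => mul_nonneg (hk b).le (sq_nonneg _)
  have g0' : ∀ a, 0 ≤ (G' a a).im := by
    intro a
    rw [← v1 a]
    exact Finset.sum_nonneg fun b _ => mul_nonneg (hC.h1.hk b).le (sq_nonneg _)
  have p1 : ∀ b, ∑ c, k c * ‖G' c b‖ ^ 2 ≤ 4 / 3 * (G' b b).im := by
    intro b
    rw [← v1 b, Finset.mul_sum]
    refine Finset.sum_le_sum fun c _ => ?_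
    rw [hC.h1.hs c b]
    have := mul_le_mul_of_nonneg_right (hkk c) (sq_nonneg ‖G' b c‖)
    linarith
  have q1 : ∀ b, ∑ c, k c * ‖G c b‖ ^ 2 = (G b b).im := by
    intro b
    rw [← w1 b]
    exact Finset.sum_congr rfl fun c _ => by rw [hC.h0.hs c b]
  have hΔ : ∀ a b, G' a b - G a b = ∑ c, G a c * z c * G' c b := by
    intro a b
    rw [hC.hr a b]
    ring
  have A : ∀ a b, ‖G' a b - G a b‖ ^ 2 ≤ d ^ 2 * ((G a a).im * (4 / 3 * (G' b b).im)) := by
    intro a b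
    rw [hΔ a b]
    refine (dcs k hk (fun c => G a c) (fun c => G' c b) z d hd0 hC.hz).trans ?_
    refine mul_le_mul_of_nonneg_left ?_ (by positivity)
    rw [w1 a]
    exact mul_le_mul_of_nonneg_left (p1 b) (g0 a)
  have B : ∀ a, ((G' a a).im - (G a a).im) ^ 2 ≤ 1 / 12 * ((G a a).im * (G' a a).im) := by
    intro a
    have h1 : ((G' a a).im - (G a a).im) ^ 2 ≤ ‖G' a a - G a a‖ ^ 2 := by
      have := Complex.abs_im_le_norm (G' a a - G a a)
      rw [Complex.sub_im] at this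
      rw [← sq_abs ((G' a a).im - (G a a).im)]
      exact pow_le_pow_left₀ (abs_nonneg _) this 2
    refine h1.trans ((A a a).trans ?_)
    have h2 : d ^ 2 ≤ 1 / 16 := by nlinarith
    have h3 := mul_nonneg (g0 a) (g0' a)
    nlinarith
  have P1 : ∀ a, (G' a a).im ≤ 3 / 2 * (G a a).im ∧ (G a a).im ≤ 3 / 2 * (G' a a).im := by
    intro a
    have h1 := B a
    have h2 := g0 a
    have h3 := g0' a
    constructor
    · by_contra hc
      push Not at hc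
      nlinarith
    · by_contra hc
      push Not at hc
      nlinarith
  have P2 : ∀ a b, ‖G' a b - G a b‖ ^ 2 ≤ 2 * d ^ 2 * ((G a a).im * (G b b).im) := by
    intro a b
    refine (A a b).trans ?_
    have h1 := mul_le_mul_of_nonneg_left (P1 b).1 (mul_nonneg (sq_nonneg d) (g0 a))
    nlinarith
  have P3 : ∀ b, ∑ a, k a * ‖G' a b - G a b‖ ^ 2 ≤ 2 * d ^ 2 * (G b b).im := by
    intro b
    have h1 := (h X G k hC.h0).2.1 (fun c => z c * G' c b)
    have h2 : ∑ a, k a * ‖G' a b - G a b‖ ^ 2 =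
        ∑ a, k a * ‖∑ c, G a c * (z c * G' c b)‖ ^ 2 := by
      refine Finset.sum_congr rfl fun a _ => ?_
      rw [hΔ a b]
      congr 3
      exact Finset.sum_congr rfl fun c _ => by ring
    rw [h2]
    refine h1.trans ?_
    have h3 : ∑ c, ‖z c * G' c b‖ ^ 2 / k c ≤ d ^ 2 * ∑ c, k c * ‖G' c b‖ ^ 2 := by
      rw [Finset.mul_sum]
      refine Finset.sum_le_sum fun c _ => ?_
      rw [div_le_iff₀ (hk c), norm_mul, mul_pow]
      have h4 : ‖z c‖ ^ 2 ≤ (d * k c) ^ 2 := pow_le_pow_left₀ (norm_nonneg _) (hC.hz c) 2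
      have h5 := mul_le_mul_of_nonneg_right h4 (sq_nonneg ‖G' c b‖)
      calc ‖z c‖ ^ 2 * ‖G' c b‖ ^ 2 ≤ (d * k c) ^ 2 * ‖G' c b‖ ^ 2 := h5
        _ = d ^ 2 * (k c * ‖G' c b‖ ^ 2) * k c := by ring
    refine h3.trans ?_
    have h6 := mul_le_mul_of_nonneg_left (p1 b) (sq_nonneg d)
    have h7 := mul_le_mul_of_nonneg_left (P1 b).1 (sq_nonneg d)
    nlinarith
  have hsym : ∀ a b, G' a b - G a b = G' b a - G b a := by
    intro a b
    rw [hC.h1.hs a b, hC.h0.hs a b]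
  have P3' : ∀ a, ∑ b, k b * ‖G' a b - G a b‖ ^ 2 ≤ 2 * d ^ 2 * (G a a).im := by
    intro a
    refine le_trans (le_of_eq ?_) (P3 a)
    exact Finset.sum_congr rfl fun b _ => by rw [hsym a b]
  refine ⟨P1, P2, P3, ?_, ?_, ?_⟩
  · intro a
    have h1 : G' a a - G a a - ∑ c, G a c ^ 2 * z c =
        ∑ c, G a c * z c * (G' c a - G c a) := by
      rw [hΔ a a, ← Finset.sum_sub_distrib]
      refine Finset.sum_congr rfl fun c _ => ?_
      rw [hC.h0.hs c a]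
      ring
    rw [h1]
    have h2 := dcs k hk (fun c => G a c) (fun c => G' c a - G c a) z d hd0 hC.hz
    rw [w1 a] at h2
    have h3 : ‖∑ c, G a c * z c * (G' c a - G c a)‖ ^ 2 ≤ (2 * d ^ 2 * (G a a).im) ^ 2 := by
      refine h2.trans ?_
      have h4 := mul_le_mul_of_nonneg_left (P3 a) (mul_nonneg (sq_nonneg d) (g0 a))
      have h5 : 0 ≤ d ^ 4 * (G a a).im ^ 2 := by positivity
      calc d ^ 2 * ((G a a).im * ∑ c, k c * ‖G' c a - G c a‖ ^ 2)
          = d ^ 2 * (G a a).im * ∑ c, k c * ‖G' c a - G c a‖ ^ 2 := by ring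
        _ ≤ d ^ 2 * (G a a).im * (2 * d ^ 2 * (G a a).im) := h4
        _ = 2 * (d ^ 4 * (G a a).im ^ 2) := by ring
        _ ≤ 4 * (d ^ 4 * (G a a).im ^ 2) := by linarith
        _ = (2 * d ^ 2 * (G a a).im) ^ 2 := by ring
    have h6 : 0 ≤ 2 * d ^ 2 * (G a a).im := mul_nonneg (by positivity) (g0 a)
    exact (sq_le_sq₀ (norm_nonneg _) h6).1 h3
  · intro a
    have h1 : ∀ b, k b * ‖G' a b ^ 2 - G a b ^ 2‖ ≤
        2 * (k b * ‖G' a b - G a b‖ * ‖G a b‖) + k b * ‖G' a b - G a b‖ ^ 2 := by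
      intro b
      have h2 : G' a b ^ 2 - G a b ^ 2 = (G' a b - G a b) * (2 * G a b + (G' a b - G a b)) := by
        ring
      rw [h2, norm_mul]
      have h3 : ‖2 * G a b + (G' a b - G a b)‖ ≤ 2 * ‖G a b‖ + ‖G' a b - G a b‖ := by
        refine (norm_add_le _ _).trans ?_
        rw [norm_mul, Complex.norm_ofNat]
      have h4 := mul_le_mul_of_nonneg_left h3 (mul_nonneg (hk b).le (norm_nonneg (G' a b - G a b)))
      calc k b * (‖G' a b - G a b‖ * ‖2 * G a b + (G' a b - G a b)‖)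
          = k b * ‖G' a b - G a b‖ * ‖2 * G a b + (G' a b - G a b)‖ := by ring
        _ ≤ k b * ‖G' a b - G a b‖ * (2 * ‖G a b‖ + ‖G' a b - G a b‖) := h4
        _ = _ := by ring
    have h5 : ∑ b, k b * ‖G' a b ^ 2 - G a b ^ 2‖ ≤
        2 * (∑ b, k b * ‖G' a b - G a b‖ * ‖G a b‖) + ∑ b, k b * ‖G' a b - G a b‖ ^ 2 := by
      rw [Finset.mul_sum, ← Finset.sum_add_distrib]
      exact Finset.sum_le_sum fun b _ => h1 b
    have h6 := wcs k hk (fun b => G' a b - G a b) (fun b => G a b)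
    rw [w1 a] at h6
    have h7 : (∑ b, k b * ‖G' a b - G a b‖ * ‖G a b‖) ^ 2 ≤ (3 / 2 * d * (G a a).im) ^ 2 := by
      refine h6.trans ?_
      have h8 := mul_le_mul_of_nonneg_right (P3' a) (g0 a)
      have h9 : 0 ≤ d ^ 2 * (G a a).im ^ 2 := by positivity
      nlinarith
    have h10 : 0 ≤ ∑ b, k b * ‖G' a b - G a b‖ * ‖G a b‖ :=
      Finset.sum_nonneg fun b _ =>
        mul_nonneg (mul_nonneg (hk b).le (norm_nonneg _)) (norm_nonneg _)
    have h11 : 0 ≤ 3 / 2 * d * (G a a).im := mul_nonneg (by positivity) (g0 a)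
    have h12 := (sq_le_sq₀ h10 h11).1 h7
    have h13 := P3' a
    have h14 : d * (d * (G a a).im) ≤ 1 / 4 * (d * (G a a).im) :=
      mul_le_mul_of_nonneg_right hd4 (mul_nonneg hd0 (g0 a))
    have h15 := mul_nonneg hd0 (g0 a)
    nlinarith
  · intro a S κ₀ g₀ hκ hg₀ hS
    have h1 : ∀ b ∈ S, ‖G' a b - G a b‖ ^ 4 ≤
        2 * d ^ 2 * (G a a).im * g₀ * (1 / κ₀ * (k b * ‖G' a b - G a b‖ ^ 2)) := by
      intro b hb
      obtain ⟨h2, h3⟩ := hS b hb
      have h4 : ‖G' a b - G a b‖ ^ 2 ≤ 2 * d ^ 2 * (G a a).im * g₀ := by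
        refine (P2 a b).trans ?_
        have := mul_le_mul_of_nonneg_left h3 (mul_nonneg (sq_nonneg d) (g0 a))
        nlinarith
      have h5 : ‖G' a b - G a b‖ ^ 2 ≤ 1 / κ₀ * (k b * ‖G' a b - G a b‖ ^ 2) := by
        rw [one_div, ← div_eq_inv_mul, le_div_iff₀ hκ]
        have := mul_le_mul_of_nonneg_right h2 (sq_nonneg ‖G' a b - G a b‖)
        linarith
      calc ‖G' a b - G a b‖ ^ 4 = ‖G' a b - G a b‖ ^ 2 * ‖G' a b - G a b‖ ^ 2 := by ring
        _ ≤ _ := mul_le_mul h4 h5 (sq_nonneg _)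
            (mul_nonneg (mul_nonneg (by positivity) (g0 a)) hg₀)
    refine (Finset.sum_le_sum h1).trans ?_
    rw [← Finset.mul_sum, ← Finset.mul_sum]
    have h6 : ∑ b ∈ S, k b * ‖G' a b - G a b‖ ^ 2 ≤ 2 * d ^ 2 * (G a a).im := by
      refine le_trans ?_ (P3' a)
      exact Finset.sum_le_sum_of_subset_of_nonneg (Finset.subset_univ S)
        fun b _ _ => mul_nonneg (hk b).le (sq_nonneg _)
    have h7 : 0 ≤ 2 * d ^ 2 * (G a a).im * g₀ * (1 / κ₀) :=
      mul_nonneg (mul_nonneg (mul_nonneg (by positivity) (g0 a)) hg₀) (by positivity)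
    have h8 := mul_le_mul_of_nonneg_left h6 h7
    calc 2 * d ^ 2 * (G a a).im * g₀ * (1 / κ₀ * ∑ b ∈ S, k b * ‖G' a b - G a b‖ ^ 2)
        = 2 * d ^ 2 * (G a a).im * g₀ * (1 / κ₀) * ∑ b ∈ S, k b * ‖G' a b - G a b‖ ^ 2 := by ring
      _ ≤ 2 * d ^ 2 * (G a a).im * g₀ * (1 / κ₀) * (2 * d ^ 2 * (G a a).im) := h8
      _ = 4 * d ^ 4 * (G a a).im ^ 2 * g₀ / κ₀ := by ring

end Pool.Agent.AGU.H10
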